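import Mathlib

/-!
# MP_c50127: Christoffel words do not always have the minimum number of Lyndon factors

For `n = 506` there is a Lyndon word of length `n` with at most `16` distinct Lyndon factors, while
every Christoffel word of length `n` has at least `17`.
-/

set_option autoImplicit false

namespace Pool.Agent.Results.MP_c50127_co.LengthFiveHundredSix

/-- A word over `{a, b}` (`false` is the letter `a`, `true` is the letter `b`) is a Lyndon word if
it is nonempty and lexicographically smaller than each of its proper nonempty suffixes. -/
def IsLyndon (w : List Bool) : Prop := w ≠ [] ∧ ∀ s : List Bool, s <:+ w → s ≠ [] → s ≠ w → w < s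

/-- `L(w)`: the number of distinct factors of `w` that are Lyndon words. -/
noncomputable def L (w : List Bool) : ℕ := {u : List Bool | u <:+: w ∧ IsLyndon u}.ncard

/-- `m(n)`: the least value of `L(w)` over all Lyndon words `w` of length `n`. -/
noncomputable def m (n : ℕ) : ℕ := sInf {k : ℕ | ∃ w : List Bool, w.length = n ∧ IsLyndon w ∧ L w = k}

/-- The (lower) Christoffel word of slope `p/n`: the letter number `i + 1` is `b` if and only if
`⌊(i+1)p/n⌋ ≠ ⌊ip/n⌋`. -/
def christoffel (p n : ℕ) : List Bool := (List.range n).map fun i => !((i + 1) * p / n == i * p / n)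

/-! ### Lyndon words -/

theorem lt_cases {x y : List Bool} (h : x < y) : x <+: y ∨ ∀ z t : List Bool, x ++ z < y ++ t := by
  induction x generalizing y with
  | nil => left; exact List.nil_prefix
  | cons a x ih =>
    cases y with
    | nil => exact absurd h (List.not_lt_nil _)
    | cons b y =>
      rw [List.cons_lt_cons_iff] at h
      rcases h with h | ⟨rfl, h⟩
      · right
        intro z t
        rw [List.cons_append, List.cons_append, List.cons_lt_cons_iff]
        exact Or.inl h
      · rcases ih h with h1 | h1
        · left; exact (List.prefix_cons_inj a).2 h1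
        · right
          intro z t
          rw [List.cons_append, List.cons_append, List.cons_lt_cons_iff]
          exact Or.inr ⟨rfl, h1 z t⟩

theorem append_lt_append_left (x : List Bool) {y z : List Bool} (h : y < z) : x ++ y < x ++ z := by
  induction x with
  | nil => exact h
  | cons a x ih =>
    rw [List.cons_append, List.cons_append, List.cons_lt_cons_iff]
    exact Or.inr ⟨rfl, ih⟩

theorem lt_append_self (x : List Bool) {y : List Bool} (h : y ≠ []) : x < x ++ y := by
  have : x ++ [] < x ++ y := append_lt_append_left x (by
    cases y with
    | nil => exact absurd rfl h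
    | cons a y => exact List.nil_lt_cons a y)
  simpa using this

theorem append_lt_right {u v : List Bool} (hu : u ≠ []) (hv : IsLyndon v) (h : u < v) :
    u ++ v < v := by
  rcases lt_cases h with ⟨v', rfl⟩ | h1
  · have hv' : v' ≠ [] := by
      rintro rfl
      simp at h
    have h2 := hv.2 v' (List.suffix_append _ _) hv' (by
      intro h3
      have := congrArg List.length h3
      rw [List.length_append] at this
      have : 0 < u.length := List.length_pos_iff.2 hu
      omega)
    exact append_lt_append_left u h2
  · simpa using h1 v []

/-- If `u < v` are Lyndon words, then `uv` is a Lyndon word. -/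
theorem IsLyndon.append {u v : List Bool} (hu : IsLyndon u) (hv : IsLyndon v) (h : u < v) :
    IsLyndon (u ++ v) := by
  have huv := append_lt_right hu.1 hv h
  refine ⟨by simp [hu.1], ?_⟩
  intro s hs hs0 hs1
  by_cases hl : s.length ≤ v.length
  · have h1 : s <:+ v := List.suffix_of_suffix_length_le hs (List.suffix_append _ _) hl
    rcases eq_or_ne s v with rfl | h2
    · exact huv
    · exact lt_trans huv (hv.2 s h1 hs0 h2)
  · obtain ⟨s', rfl⟩ : v <:+ s :=
      List.suffix_of_suffix_length_le (List.suffix_append _ _) hs (by omega)
    have h1 : s' <:+ u := by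
      obtain ⟨t, ht⟩ := hs
      refine ⟨t, ?_⟩
      rw [← List.append_assoc] at ht
      exact List.append_cancel_right ht
    have h2 : s' ≠ [] := by rintro rfl; simp at hl
    have h3 : s' ≠ u := by rintro rfl; exact hs1 rfl
    have h4 := hu.2 s' h1 h2 h3
    rcases lt_cases h4 with h5 | h5
    · exact absurd (h1.eq_of_length_le h5.length_le) h3
    · exact h5 v v

/-! ### Lower bound for Christoffel words -/

/-- A step down in the Stern-Brocot tree of pairs of words. -/
def step (q : List Bool × List Bool) (d : Bool) : List Bool × List Bool :=
  if d then (q.1 ++ q.2, q.2) else (q.1, q.1 ++ q.2)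

/-- The pair of words reached along a path. -/
def run (l : List Bool) : List Bool × List Bool := l.foldl step ([false], [true])

/-- The word reached along a path. -/
def final (l : List Bool) : List Bool := (run l).1 ++ (run l).2

theorem lyndon_letter (c : Bool) : IsLyndon [c] := by
  refine ⟨by simp, ?_⟩
  intro s hs hs0 hs1
  exfalso
  have h1 := hs.length_le
  have h2 : 0 < s.length := List.length_pos_iff.2 hs0
  exact hs1 (hs.eq_of_length (by simp at h1 ⊢; omega))

theorem run_spec (l : List Bool) : IsLyndon (run l).1 ∧ IsLyndon (run l).2 ∧ (run l).1 < (run l).2 := by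
  induction l using List.reverseRecOn with
  | nil => exact ⟨lyndon_letter _, lyndon_letter _, by decide⟩
  | append_singleton l d ih =>
    obtain ⟨h1, h2, h3⟩ := ih
    have h4 := h1.append h2 h3
    have e : run (l ++ [d]) = step (run l) d := by simp [run, List.foldl_append]
    rw [e]
    unfold step
    cases d
    · exact ⟨h1, h4, lt_append_self _ h2.1⟩
    · exact ⟨h4, h2, append_lt_right h1.1 h2 h3⟩

theorem final_lyndon (l : List Bool) : IsLyndon (final l) := by
  obtain ⟨h1, h2, h3⟩ := run_spec l
  exact h1.append h2 h3

theorem factors_final (l : List Bool) : ∃ T : Finset (List Bool), T.card = l.length + 3 ∧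
    ∀ x ∈ T, x <:+: final l ∧ IsLyndon x := by
  induction l using List.reverseRecOn with
  | nil =>
    refine ⟨{[false], [true], [false, true]}, by decide, ?_⟩
    intro x hx
    simp only [Finset.mem_insert, Finset.mem_singleton] at hx
    rcases hx with rfl | rfl | rfl
    · exact ⟨by decide, lyndon_letter _⟩
    · exact ⟨by decide, lyndon_letter _⟩
    · exact ⟨by decide, final_lyndon []⟩
  | append_singleton l d ih =>
    obtain ⟨T, hT, h⟩ := ih
    have e : run (l ++ [d]) = step (run l) d := by simp [run, List.foldl_append]
    obtain ⟨h1, h2, h3⟩ := run_spec l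
    have p1 : 0 < (run l).1.length := List.length_pos_iff.2 h1.1
    have p2 : 0 < (run l).2.length := List.length_pos_iff.2 h2.1
    have hinf : final l <:+: final (l ++ [d]) ∧ (final l).length < (final (l ++ [d])).length := by
      unfold final
      rw [e]
      unfold step
      cases d
      · refine ⟨(List.suffix_append _ _).isInfix, ?_⟩
        simp; omega
      · refine ⟨(List.prefix_append _ _).isInfix, ?_⟩
        simp; omega
    refine ⟨insert (final (l ++ [d])) T, ?_, ?_⟩
    · rw [Finset.card_insert_of_notMem, hT, List.length_append]
      · rfl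
      · intro hcon
        have := (h _ hcon).1.length_le
        omega
    · intro x hx
      rcases Finset.mem_insert.1 hx with rfl | hx
      · exact ⟨List.infix_rfl, final_lyndon _⟩
      · exact ⟨(h x hx).1.trans hinf.1, (h x hx).2⟩

theorem infix_finite (w : List Bool) : {u : List Bool | u <:+: w ∧ IsLyndon u}.Finite := by
  refine (w.sublists.toFinset.finite_toSet).subset ?_
  rintro u ⟨hu, -⟩
  simp only [List.coe_toFinset, Set.mem_ofPred_eq, List.mem_sublists]
  exact hu.sublist

theorem le_L_final (l : List Bool) : l.length + 3 ≤ L (final l) := by
  obtain ⟨T, hT, h⟩ := factors_final l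
  rw [← hT, ← Set.ncard_coe_finset, L]
  exact Set.ncard_le_ncard (fun x hx => h x hx) (infix_finite _)

/-- The path in the Stern-Brocot tree leading to the word with `x` letters `a` and `y` letters
`b` (with a bound on the number of steps). -/
def path : ℕ → ℕ → ℕ → List Bool
  | 0, _, _ => []
  | f + 1, x, y => if x = y then [] else if y < x then false :: path f (x - y) y
      else true :: path f x (y - x)

/-- Binary encoding of words. -/
def enc (w : List Bool) : ℕ := w.foldl (fun a c => 2 * a + c.toNat) 0

theorem enc_snoc (w : List Bool) (c : Bool) : enc (w ++ [c]) = 2 * enc w + c.toNat := by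
  simp [enc, List.foldl_append]

theorem enc_append (u v : List Bool) : enc (u ++ v) = enc u * 2 ^ v.length + enc v := by
  induction v using List.reverseRecOn with
  | nil => simp [enc]
  | append_singleton v c ih =>
    rw [← List.append_assoc, enc_snoc, enc_snoc, ih, List.length_append, List.length_singleton, pow_succ]
    ring

theorem enc_inj (u : List Bool) : ∀ v : List Bool, u.length = v.length → enc u = enc v → u = v := by
  induction u using List.reverseRecOn with
  | nil => intro v h _; exact (List.length_eq_zero_iff.1 h.symm).symm
  | append_singleton u c ih =>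
    intro v h h'
    rcases List.eq_nil_or_concat v with rfl | ⟨v, d, rfl⟩
    · simp at h
    · rw [List.concat_eq_append] at h h' ⊢
      rw [enc_snoc, enc_snoc] at h'
      have h1 : u.length = v.length := by simpa using h
      have h2 : enc u = enc v ∧ c = d := by
        cases c <;> cases d <;> simp only [Bool.toNat_false, Bool.toNat_true] at h' <;>
          first | exact ⟨by omega, rfl⟩ | (exfalso; omega)
      rw [ih v h1 h2.1, h2.2]

/-- The encoded version of `step`, with lengths. -/
def stepN (q : ℕ × ℕ × ℕ × ℕ) (d : Bool) : ℕ × ℕ × ℕ × ℕ :=
  match q with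
  | (u, a, v, b) => 
    match d with
    | true => (Nat.add (Nat.mul u (Nat.pow 2 b)) v, Nat.add a b, v, b)
    | false => (u, a, Nat.add (Nat.mul u (Nat.pow 2 b)) v, Nat.add a b)

/-- The encoded version of `run`. -/
def runN (l : List Bool) : ℕ × ℕ × ℕ × ℕ := l.foldl stepN (0, 1, 1, 1)

theorem runN_spec (l : List Bool) : runN l = (enc (run l).1, (run l).1.length, enc (run l).2, (run l).2.length) := by
  induction l using List.reverseRecOn with
  | nil => rfl
  | append_singleton l d ih =>
    have e : run (l ++ [d]) = step (run l) d := by simp [run, List.foldl_append]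
    have e' : runN (l ++ [d]) = stepN (runN l) d := by simp [runN, List.foldl_append]
    rw [e, e', ih]
    cases d
    · simp [stepN, step, enc_append]
    · simp [stepN, step, enc_append]

/-- The encoding of the Christoffel word, computed letter by letter. -/
def encC (p n : ℕ) : ℕ → ℕ → ℕ → ℕ
  | 0, _, acc => acc
  | k + 1, r, acc => if Nat.ble n (Nat.add r p) then encC p n k (Nat.sub (Nat.add r p) n) (Nat.add (Nat.mul 2 acc) 1)
      else encC p n k (Nat.add r p) (Nat.mul 2 acc)

theorem encC_spec (p n : ℕ) (hn : 0 < n) (hp : p ≤ n) : ∀ (k i acc : ℕ),
    encC p n k (i * p % n) acc =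
      ((List.range' i k).map fun i => !((i + 1) * p / n == i * p / n)).foldl
        (fun a c => 2 * a + c.toNat) acc := by
  intro k
  induction k with
  | zero => intro i acc; rfl
  | succ k ih =>
    intro i acc
    rw [encC, List.range'_succ, List.map_cons, List.foldl_cons]
    have hr : i * p % n < n := Nat.mod_lt _ hn
    have hd : n * (i * p / n) + i * p % n = i * p := Nat.div_add_mod _ _
    have hs : (i + 1) * p = (i * p % n + p) + n * (i * p / n) := by
      rw [add_mul, one_mul]; omega
    have hdiv : (i + 1) * p / n = (i * p % n + p) / n + i * p / n := by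
      rw [hs, Nat.add_mul_div_left _ _ hn]
    have hmod : (i + 1) * p % n = (i * p % n + p) % n := by
      rw [hs, Nat.add_mul_mod_self_left]
    by_cases h : n ≤ i * p % n + p
    · have e1 : (i + 1) * p / n = i * p / n + 1 := by
        rw [hdiv, Nat.div_eq_of_lt_le (k := 1) (by omega) (by omega)]; omega
      have e2 : (i + 1) * p % n = i * p % n + p - n := by
        rw [hmod, Nat.mod_eq_sub_mod h, Nat.mod_eq_of_lt (by omega)]
      have hb : Nat.ble n (Nat.add (i * p % n) p) = true := Nat.ble_eq_true_of_le h
      rw [hb, if_pos rfl, e1]
      have := ih (i + 1) (2 * acc + 1)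
      rw [e2] at this
      have hne : (i * p / n + 1 == i * p / n) = false := by simp
      rw [hne]
      exact this
    · have e1 : (i + 1) * p / n = i * p / n := by
        rw [hdiv, Nat.div_eq_of_lt (by omega)]; omega
      have e2 : (i + 1) * p % n = i * p % n + p := by
        rw [hmod, Nat.mod_eq_of_lt (by omega)]
      have hb : ¬ Nat.ble n (Nat.add (i * p % n) p) = true := by
        intro h4
        exact h (Nat.le_of_ble_eq_true h4)
      rw [if_neg hb, e1]
      have := ih (i + 1) (2 * acc)
      rw [e2] at this
      have hne : (i * p / n == i * p / n) = true := by simp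
      rw [hne]
      exact this

theorem encC_eq (p n : ℕ) (hn : 0 < n) (hp : p ≤ n) : encC p n n 0 0 = enc (christoffel p n) := by
  have := encC_spec p n hn hp n 0 0
  rw [zero_mul, Nat.zero_mod] at this
  rw [this, christoffel, enc, List.range_eq_range']

/-- The check for the Christoffel word of slope `p/506`. -/
def chk (p : ℕ) : Bool :=
  let l := path 506 (506 - p) p
  match runN l with
  | (u, a, v, b) => Nat.ble 14 l.length &&
      (Nat.beq (a + b) 506 && Nat.beq (u * 2 ^ b + v) (encC p 506 506 0 0))

theorem chk_all : ∀ p ∈ List.range 507, Nat.Coprime p 506 → chk p = true := by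
  decide +kernel

theorem christoffel_check (p : ℕ) (hp : p ≤ 506) (h : Nat.Coprime p 506) :
    final (path 506 (506 - p) p) = christoffel p 506 ∧
      14 ≤ (path 506 (506 - p) p).length := by
  have h1 := chk_all p (List.mem_range.2 (by omega)) h
  have h2 := runN_spec (path 506 (506 - p) p)
  unfold chk at h1
  simp only [h2, Bool.and_eq_true] at h1
  obtain ⟨h3, h4, h5⟩ := h1
  replace h4 := Nat.eq_of_beq_eq_true h4
  replace h5 := Nat.eq_of_beq_eq_true h5
  refine ⟨?_, Nat.le_of_ble_eq_true h3⟩
  apply enc_inj
  · rw [final, List.length_append, h4, christoffel, List.length_map, List.length_range]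
  · rw [final, enc_append, h5, encC_eq p 506 (by norm_num) hp]

theorem christoffel_ge (p : ℕ) (hp : p ≤ 506) (h : Nat.Coprime p 506) :
    17 ≤ L (christoffel p 506) := by
  obtain ⟨h1, h2⟩ := christoffel_check p hp h
  rw [← h1]
  exact le_trans (by omega) (le_L_final _)

/-! ### Upper bound for one Lyndon word -/

theorem not_lyndon_of_border {A B : List Bool} {p : ℕ} (hp : 1 ≤ p) (hA : A ≠ [])
    (h : (A ++ B).drop p = A) (hl : p ≤ (A ++ B).length) : ¬ IsLyndon (A ++ B) := by
  intro hL
  have h1 : (A ++ B).drop p <:+ A ++ B := List.drop_suffix _ _
  rw [h] at h1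
  have h2 : A ≠ A ++ B := by
    intro h3
    have := congrArg List.length h
    rw [List.length_drop] at this
    have h4 := congrArg List.length h3
    omega
  have h5 := hL.2 A h1 hA h2
  have hB : B ≠ [] := by rintro rfl; simp at h2
  exact absurd (lt_append_self A hB) (lt_asymm h5)

/-- Lengths of initial factors of `w` that may be Lyndon words (Duval's algorithm). -/
def duval (w : List Bool) : List Bool → List Bool → ℕ → List ℕ
  | _, [], _ => []
  | [], _ :: inp, j => (j + 1) :: duval w w inp (j + 1)
  | d :: cmp, c :: inp, j =>
    if c = d then duval w cmp inp (j + 1)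
    else if c then (j + 1) :: duval w w inp (j + 1)
    else []

theorem duval_spec (w : List Bool) : ∀ (inp cmp : List Bool) (j p : ℕ), 1 ≤ p → p ≤ j →
    inp = w.drop j → cmp = w.drop (j - p) → j ≤ w.length →
    (w.drop p).take (j - p) = w.take (j - p) →
    ∀ l, j < l → l ≤ w.length → IsLyndon (w.take l) → l ∈ duval w cmp inp j := by
  intro inp
  induction inp with
  | nil =>
    intro cmp j p _ _ hinp _ _ _ l hl hl2 _
    exfalso
    have := congrArg List.length hinp
    simp at this
    omega
  | cons c inp ih =>
    intro cmp j p hp hpj hinp hcmp hj hper l hl hl2 hL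
    have hjl : j < w.length := by
      have := congrArg List.length hinp
      simp at this
      omega
    have hinp' : inp = w.drop (j + 1) := by
      have : w.drop (j + 1) = (w.drop j).drop 1 := by rw [List.drop_drop]
      rw [this, ← hinp]; rfl
    cases cmp with
    | nil =>
      exfalso
      have := congrArg List.length hcmp
      simp at this
      omega
    | cons d cmp =>
      have hcmp' : cmp = w.drop (j + 1 - p) := by
        have : w.drop (j + 1 - p) = (w.drop (j - p)).drop 1 := by
          rw [List.drop_drop]; congr 1; omega
        rw [this, ← hcmp]; rfl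
      -- the decompositions of `w` and of its suffix
      have hw : w = w.take (j - p) ++ d :: cmp := by rw [hcmp, List.take_append_drop]
      have hwp : w.drop p = w.take (j - p) ++ c :: inp := by
        rw [← hper, hinp]
        have : w.drop j = (w.drop p).drop (j - p) := by rw [List.drop_drop]; congr 1; omega
        rw [this, List.take_append_drop]
      rw [duval]
      split_ifs with h1 h2
      · subst h1
        have hper' : (w.drop p).take (j + 1 - p) = w.take (j + 1 - p) := by
          have e1 : (w.drop p).take (j + 1 - p) = w.take (j - p) ++ [c] := by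
            rw [hwp, List.take_append, List.length_take, Nat.min_eq_left (by omega),
              show j + 1 - p - (j - p) = 1 by omega, List.take_of_length_le (by simp; omega)]
            rfl
          have e2 : w.take (j + 1 - p) = w.take (j - p) ++ [c] := by
            conv_lhs => rw [hw]
            rw [List.take_append, List.length_take, Nat.min_eq_left (by omega),
              show j + 1 - p - (j - p) = 1 by omega, List.take_of_length_le (by simp; omega)]
            rfl
          rw [e1, e2]
        rcases Nat.lt_or_ge (j + 1) l with h3 | h3
        · exact ih cmp (j + 1) p hp (by omega) hinp' hcmp' (by omega) hper' l h3 hl2 hL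
        · exfalso
          have hlj : l = j + 1 := by omega
          subst hlj
          have e1 : w.take (j + 1) = w.take (j + 1 - p) ++ (w.take (j + 1)).drop (j + 1 - p) := by
            conv_lhs => rw [← List.take_append_drop (j + 1 - p) (w.take (j + 1))]
            rw [List.take_take, Nat.min_eq_left (by omega)]
          rw [e1] at hL
          refine not_lyndon_of_border (p := p) hp ?_ ?_ ?_ hL
          · intro h4
            have h5 := congrArg List.length h4
            rw [List.length_take, List.length_nil] at h5
            omega
          · rw [← e1, List.drop_take]; exact hper'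
          · rw [← e1]; simp; omega
      · rcases Nat.lt_or_ge (j + 1) l with h3 | h3
        · exact List.mem_cons_of_mem _ (ih w (j + 1) (j + 1) (by omega) le_rfl hinp' (by simp)
            (by omega) (by simp) l h3 hl2 hL)
        · have : l = j + 1 := by omega
          rw [this]; simp
      · exfalso
        have hc : c = false := by simpa using h2
        have hd : d = true := by
          cases d with
          | false => exact absurd hc h1
          | true => rfl
        subst hc; subst hd
        have hs : (w.take l).drop p <:+ w.take l := List.drop_suffix _ _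
        have e1 : (w.take l).drop p = w.take (j - p) ++ (false :: inp.take (l - p - (j - p) - 1)) := by
          rw [List.drop_take, hwp, List.take_append, List.length_take, Nat.min_eq_left (by omega),
            List.take_of_length_le (by simp; omega)]
          congr 1
          obtain ⟨k, hk⟩ : ∃ k, l - p - (j - p) = k + 1 := ⟨l - p - (j - p) - 1, by omega⟩
          rw [hk]; rfl
        have e2 : w.take l = w.take (j - p) ++ (true :: cmp.take (l - (j - p) - 1)) := by
          conv_lhs => rw [hw]
          rw [List.take_append, List.length_take, Nat.min_eq_left (by omega),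
            List.take_of_length_le (by simp; omega)]
          congr 1
          obtain ⟨k, hk⟩ : ∃ k, l - (j - p) = k + 1 := ⟨l - (j - p) - 1, by omega⟩
          rw [hk]; rfl
        have h5 : (w.take l).drop p < w.take l := by
          rw [e1, e2]
          apply append_lt_append_left
          rw [List.cons_lt_cons_iff]
          left; decide
        have h6 := hL.2 _ hs (by rw [e1]; simp) (ne_of_lt h5)
        exact absurd h5 (lt_asymm h6)

/-- Lengths of initial factors that may be Lyndon words. -/
def lens (w : List Bool) : List ℕ := 1 :: duval w w (w.drop 1) 1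

theorem mem_lens {w : List Bool} {l : ℕ} (hl : l ≤ w.length) (hL : IsLyndon (w.take l)) :
    l ∈ lens w := by
  have h0 : l ≠ 0 := by
    rintro rfl
    exact hL.1 (by simp)
  rcases eq_or_ne l 1 with rfl | h1
  · simp [lens]
  · exact List.mem_cons_of_mem _ (duval_spec w _ _ 1 1 le_rfl le_rfl rfl (by simp) (by omega)
      (by simp) l (by omega) hl hL)

/-- The words `x_0, ..., x_15`; the last one is the Lyndon word of length `506`. -/
def xs : List (List Bool) :=
  let a := [false]
  let b := [true]
  let x2 := a ++ b
  let x3 := a ++ x2
  let x4 := x3 ++ x2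
  let x5 := x3 ++ x4
  let x6 := x5 ++ x4
  let x7 := x6 ++ x4
  let x8 := x5 ++ x6
  let x9 := x5 ++ x7
  let x10 := x8 ++ x9
  let x11 := x10 ++ x9
  let x12 := x10 ++ x11
  let x13 := x12 ++ x11
  let x14 := x12 ++ x13
  let x15 := x14 ++ x13
  [a, b, x2, x3, x4, x5, x6, x7, x8, x9, x10, x11, x12, x13, x14, x15]

/-- The Lyndon word of length `506`. -/
def w0 : List Bool := xs.getD 15 []

theorem w0_length : w0.length = 506 := by decide +kernel

theorem lyndon_xs : ∀ k < 16, IsLyndon (xs.getD k []) := by
  have h0 : IsLyndon (xs.getD 0 []) := lyndon_letter _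
  have h1 : IsLyndon (xs.getD 1 []) := lyndon_letter _
  have h2 : IsLyndon (xs.getD 2 []) := IsLyndon.append h0 h1 (by decide +kernel)
  have h3 : IsLyndon (xs.getD 3 []) := IsLyndon.append h0 h2 (by decide +kernel)
  have h4 : IsLyndon (xs.getD 4 []) := IsLyndon.append h3 h2 (by decide +kernel)
  have h5 : IsLyndon (xs.getD 5 []) := IsLyndon.append h3 h4 (by decide +kernel)
  have h6 : IsLyndon (xs.getD 6 []) := IsLyndon.append h5 h4 (by decide +kernel)
  have h7 : IsLyndon (xs.getD 7 []) := IsLyndon.append h6 h4 (by decide +kernel)
  have h8 : IsLyndon (xs.getD 8 []) := IsLyndon.append h5 h6 (by decide +kernel)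
  have h9 : IsLyndon (xs.getD 9 []) := IsLyndon.append h5 h7 (by decide +kernel)
  have h10 : IsLyndon (xs.getD 10 []) := IsLyndon.append h8 h9 (by decide +kernel)
  have h11 : IsLyndon (xs.getD 11 []) := IsLyndon.append h10 h9 (by decide +kernel)
  have h12 : IsLyndon (xs.getD 12 []) := IsLyndon.append h10 h11 (by decide +kernel)
  have h13 : IsLyndon (xs.getD 13 []) := IsLyndon.append h12 h11 (by decide +kernel)
  have h14 : IsLyndon (xs.getD 14 []) := IsLyndon.append h12 h13 (by decide +kernel)
  have h15 : IsLyndon (xs.getD 15 []) := IsLyndon.append h14 h13 (by decide +kernel)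
  intro k hk
  interval_cases k <;> assumption

/-- The words `x_0, ..., x_15` together with their lengths. -/
def xl : List (ℕ × List Bool) := [
  (1, xs.getD 0 []),
  (1, xs.getD 1 []),
  (2, xs.getD 2 []),
  (3, xs.getD 3 []),
  (5, xs.getD 4 []),
  (8, xs.getD 5 []),
  (13, xs.getD 6 []),
  (18, xs.getD 7 []),
  (21, xs.getD 8 []),
  (26, xs.getD 9 []),
  (47, xs.getD 10 []),
  (73, xs.getD 11 []),
  (120, xs.getD 12 []),
  (193, xs.getD 13 []),
  (313, xs.getD 14 []),
  (506, xs.getD 15 [])]

theorem xl_sub : ∀ q ∈ xl, q.2 ∈ xs := by decide +kernel

/-- A fast equality test for the initial factor of given length. -/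
def pre : ℕ → List Bool → List Bool → Bool
  | 0, [], _ => true
  | k + 1, c :: x, d :: y => c == d && pre k x y
  | _, _, _ => false

theorem pre_spec : ∀ (k : ℕ) (x y : List Bool), pre k x y = true → x = y.take k := by
  intro k
  induction k with
  | zero =>
    intro x y h
    cases x with
    | nil => simp
    | cons c x => simp [pre] at h
  | succ k ih =>
    intro x y h
    cases x with
    | nil => simp [pre] at h
    | cons c x =>
      cases y with
      | nil => simp [pre] at h
      | cons d y =>
        simp only [pre, Bool.and_eq_true, beq_iff_eq] at h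
        rw [List.take_succ_cons, h.1, ih x y h.2]

theorem w0_check : ∀ i ∈ List.range 507, ∀ l ∈ lens (w0.drop i),
    (xl.find? fun q => Nat.beq q.1 l && pre l q.2 (w0.drop i)).isSome = true ∨
      (w0.drop i).length < l := by
  decide +kernel

theorem L_w0 : L w0 ≤ 16 := by
  have hsub : {u : List Bool | u <:+: w0 ∧ IsLyndon u} ⊆ (xs.toFinset : Set (List Bool)) := by
    rintro u ⟨⟨s, t, hst⟩, hu⟩
    have hlen : s.length + u.length + t.length = 506 := by
      rw [← w0_length, ← hst]; simp; omega
    have hdrop : w0.drop s.length = u ++ t := by
      rw [← hst, List.append_assoc, List.drop_left]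
    have htake : (w0.drop s.length).take u.length = u := by rw [hdrop, List.take_left]
    have hmem : u.length ∈ lens (w0.drop s.length) := by
      apply mem_lens
      · rw [hdrop]; simp
      · rw [htake]; exact hu
    rcases w0_check s.length (List.mem_range.2 (by omega)) _ hmem with h | h
    · rw [Option.isSome_iff_exists] at h
      obtain ⟨x, hx⟩ := h
      have h1 := List.find?_some hx
      have h2 := List.mem_of_find?_eq_some hx
      rw [Bool.and_eq_true] at h1
      have h3 := pre_spec _ _ _ h1.2
      rw [htake] at h3
      rw [List.coe_toFinset, Set.mem_ofPred_eq, ← h3]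
      exact xl_sub _ h2
    · rw [hdrop] at h
      simp at h
  unfold L
  refine (Set.ncard_le_ncard hsub (Finset.finite_toSet _)).trans ?_
  rw [Set.ncard_coe_finset]
  exact (List.toFinset_card_le xs).trans (by decide +kernel)

/-- The answer to Q1 is negative: it is not true that for every `n ≥ 1` some Christoffel word of
length `n` has the minimum number `m(n)` of distinct Lyndon factors among the Lyndon words of length
`n`. It fails for `n = 506`. -/
theorem result : ¬ ∀ n : ℕ, 1 ≤ n → ∃ p : ℕ, p ≤ n ∧ Nat.Coprime p n ∧
    L (christoffel p n) = m n := by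
  intro h
  obtain ⟨p, hp, hc, hL⟩ := h 506 (by norm_num)
  have h1 := christoffel_ge p hp hc
  have h2 : m 506 ≤ L w0 := Nat.sInf_le ⟨w0, w0_length, lyndon_xs 15 (by norm_num), rfl⟩
  have h3 := L_w0
  omega

end Pool.Agent.Results.MP_c50127_co.LengthFiveHundredSix
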